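import Mathlib

/-!
Several limit fixed points on a geometrically irreducible curve.

For a polynomial `q` over a finite field with `q 1 = 0`, let
`T (u, v) = (u + w, w)` with `w = q(u) (v + q(u))` and let `Y` be the line `u - v = 1`.
`T` is injective off the curve `q(u) = 0`, and the image of that open set misses `Y`, so (orbits
being finite) every geometric point of `Y` falls on `q(u) = 0` and then on a fixed point `(c, 0)`.
-/

set_option autoImplicit false

namespace Pool.Agent.Results.MP_2dcdad_ag.ManyLimits

open Polynomial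

section Dyn

variable {K : Type} [Field K]

/-- The map on `K`-points attached to a polynomial `q`. -/
def step (q : K[X]) (x : Fin 2 → K) : Fin 2 → K :=
  ![x 0 + q.eval (x 0) * (x 1 + q.eval (x 0)), q.eval (x 0) * (x 1 + q.eval (x 0))]

@[simp] lemma step_zero (q : K[X]) (x : Fin 2 → K) :
    step q x 0 = x 0 + q.eval (x 0) * (x 1 + q.eval (x 0)) := rfl

@[simp] lemma step_one (q : K[X]) (x : Fin 2 → K) :
    step q x 1 = q.eval (x 0) * (x 1 + q.eval (x 0)) := rfl

omit [Field K] in
lemma ext2 {x y : Fin 2 → K} (h0 : x 0 = y 0) (h1 : x 1 = y 1) : x = y := by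
  funext i
  fin_cases i
  · exact h0
  · exact h1

lemma step_sub (q : K[X]) (x : Fin 2 → K) : step q x 0 - step q x 1 = x 0 := by
  simp

lemma step_inj (q : K[X]) {x y : Fin 2 → K} (hx : q.eval (x 0) ≠ 0) (h : step q x = step q y) :
    x = y := by
  have h0 : x 0 = y 0 := by rw [← step_sub q x, h, step_sub]
  have h1 : step q x 1 = step q y 1 := by rw [h]
  simp only [step_one, ← h0] at h1
  exact ext2 h0 (add_right_cancel (mul_left_cancel₀ hx h1))

lemma step_of_root (q : K[X]) {x : Fin 2 → K} (hx : q.eval (x 0) = 0) :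
    step q x = ![x 0, 0] := by
  apply ext2 <;> simp [hx]

lemma mem_fixed (q : K[X]) (x : Fin 2 → K) :
    x ∈ Function.fixedPoints (step q) ↔ q.eval (x 0) = 0 ∧ x 1 = 0 := by
  constructor
  · intro h
    have h' : step q x = x := h
    have h0 := congrFun h' 0
    have h1 := congrFun h' 1
    simp only [step_zero, step_one] at h0 h1
    have hw : q.eval (x 0) * (x 1 + q.eval (x 0)) = 0 := by linear_combination h0
    have hx1 : x 1 = 0 := by rw [← h1, hw]
    refine ⟨?_, hx1⟩
    rw [hx1, zero_add] at hw
    exact mul_self_eq_zero.mp hw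
  · rintro ⟨h0, h1⟩
    change step q x = x
    rw [step_of_root q h0]
    apply ext2 <;> simp [h1]

/-- A point outside the image of the open set `q(u) ≠ 0` whose orbit is finite falls on
`q(u) = 0`. -/
lemma hits_root (q : K[X]) (x : Fin 2 → K) (hx : q.eval (x 0 - x 1) = 0)
    (hfin : (Set.range fun k : ℕ => (step q)^[k] x).Finite) :
    ∃ k : ℕ, q.eval ((step q)^[k] x 0) = 0 := by
  by_contra hne
  push Not at hne
  have hinj : Function.Injective fun k : ℕ => (step q)^[k] x := by
    have key : ∀ i d : ℕ, (step q)^[i] x = (step q)^[i + (d + 1)] x → False := by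
      intro i d
      induction i with
      | zero =>
        intro h
        rw [zero_add, Function.iterate_succ_apply'] at h
        have h2 := step_sub q ((step q)^[d] x)
        rw [← h] at h2
        simp only [Function.iterate_zero, id_eq] at h2
        exact hne d (by rw [← h2]; exact hx)
      | succ i ih =>
        intro h
        have e : i + 1 + (d + 1) = (i + (d + 1)) + 1 := by ring
        rw [e, Function.iterate_succ_apply', Function.iterate_succ_apply'] at h
        exact ih (step_inj q (hne i) h)
    intro i j hij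
    rcases lt_trichotomy i j with h | h | h
    · obtain ⟨d, rfl⟩ := Nat.exists_eq_add_of_lt h
      exact (key i d (by simpa [add_assoc] using hij)).elim
    · exact h
    · obtain ⟨d, rfl⟩ := Nat.exists_eq_add_of_lt h
      exact (key j d (by simpa [add_assoc] using hij.symm)).elim
  exact Set.infinite_range_of_injective hinj hfin

/-- The coordinates of the `n`-th iterate of the point `(t + 1, t)`, as polynomials in `t`. -/
noncomputable def coords (q : K[X]) : ℕ → K[X] × K[X]
  | 0 => (X + 1, X)
  | n + 1 => ((coords q n).1 + q.comp (coords q n).1 * ((coords q n).2 + q.comp (coords q n).1),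
      q.comp (coords q n).1 * ((coords q n).2 + q.comp (coords q n).1))

lemma iterate_coords (q : K[X]) (t : K) (n : ℕ) :
    (step q)^[n] ![t + 1, t] = ![(coords q n).1.eval t, (coords q n).2.eval t] := by
  induction n with
  | zero => apply ext2 <;> simp [coords]
  | succ n ih =>
    rw [Function.iterate_succ_apply', ih]
    apply ext2 <;> simp [coords, eval_comp]

lemma natDegree_inner (q : K[X]) (hq : 2 ≤ q.natDegree) {u v : K[X]} (hu : 1 ≤ u.natDegree)
    (huv : v.natDegree = u.natDegree) :
    (v + q.comp u).natDegree = q.natDegree * u.natDegree := by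
  rw [← natDegree_comp]
  apply natDegree_add_eq_right_of_natDegree_lt
  rw [natDegree_comp, huv]
  nlinarith

lemma coords_natDegree (q : K[X]) (hq : 2 ≤ q.natDegree) (n : ℕ) :
    1 ≤ (coords q n).1.natDegree ∧ (coords q n).2.natDegree = (coords q n).1.natDegree := by
  induction n with
  | zero =>
    have : (X + 1 : K[X]).natDegree = 1 := by simpa using natDegree_X_add_C (1 : K)
    simp [coords, this]
  | succ n ih =>
    obtain ⟨h1, h2⟩ := ih
    set u := (coords q n).1 with hu
    set v := (coords q n).2 with hv
    have hi := natDegree_inner q hq h1 h2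
    have hc : (q.comp u).natDegree = q.natDegree * u.natDegree := natDegree_comp
    have hpos : 0 < q.natDegree * u.natDegree := by positivity
    have hne1 : q.comp u ≠ 0 := by
      intro h
      rw [h, natDegree_zero] at hc
      omega
    have hne2 : v + q.comp u ≠ 0 := by
      intro h
      rw [h, natDegree_zero] at hi
      omega
    have hw : (q.comp u * (v + q.comp u)).natDegree
        = q.natDegree * u.natDegree + q.natDegree * u.natDegree := by
      rw [natDegree_mul hne1 hne2, hi, hc]
    have hlt : u.natDegree < (q.comp u * (v + q.comp u)).natDegree := by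
      rw [hw]
      nlinarith
    have hsum := natDegree_add_eq_right_of_natDegree_lt hlt
    change 1 ≤ (u + q.comp u * (v + q.comp u)).natDegree ∧
      (q.comp u * (v + q.comp u)).natDegree = (u + q.comp u * (v + q.comp u)).natDegree
    rw [hsum]
    exact ⟨by omega, rfl⟩

/-- For each root `c` of `q` and each `n`, some point of the line reaches `(c, 0)` at time
`n + 2` but not at time `n`. -/
lemma late_point [IsAlgClosed K] (q : K[X]) (hq : 2 ≤ q.natDegree) (c : K) (hc : q.eval c = 0)
    (n : ℕ) : ∃ t : K, (step q)^[n + 2] ![t + 1, t] = ![c, 0] ∧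
      (step q)^[n] ![t + 1, t] ≠ ![c, 0] := by
  obtain ⟨r, hr⟩ : X - C c ∣ q := dvd_iff_isRoot.mpr hc
  obtain ⟨h1, h2⟩ := coords_natDegree q hq n
  set u := (coords q n).1 with hu
  set v := (coords q n).2 with hv
  have hq0 : q ≠ 0 := by
    intro h
    rw [h, natDegree_zero] at hq
    omega
  have hi := natDegree_inner q hq h1 h2
  have hpos : 0 < q.natDegree * u.natDegree := by positivity
  have hne2 : v + q.comp u ≠ 0 := by
    intro h
    rw [h, natDegree_zero] at hi
    omega
  have hc' : (q.comp u).natDegree = q.natDegree * u.natDegree := natDegree_comp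
  have hru : r.comp u ≠ 0 := by
    intro h
    have : q.comp u = 0 := by rw [hr, mul_comp, h, mul_zero]
    rw [this, natDegree_zero] at hc'
    omega
  have hB : 0 < (r.comp u * (v + q.comp u)).natDegree := by
    rw [natDegree_mul hru hne2, hi]
    omega
  have hA : (C 1 + r.comp u * (v + q.comp u)).degree ≠ 0 := by
    intro h
    have := natDegree_eq_zero_iff_degree_le_zero.mpr h.le
    rw [natDegree_C_add] at this
    omega
  obtain ⟨t, ht⟩ := IsAlgClosed.exists_root _ hA
  have ht' : 1 + r.eval (u.eval t) * (v.eval t + q.eval (u.eval t)) = 0 := by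
    simpa [IsRoot, eval_comp] using ht
  have hqe : ∀ s : K, q.eval s = (s - c) * r.eval s := by
    intro s
    conv_lhs => rw [hr]
    simp
  refine ⟨t, ?_, ?_⟩
  · rw [Function.iterate_succ_apply', Function.iterate_succ_apply', iterate_coords]
    have h0 : step q ![u.eval t, v.eval t] 0 = c := by
      simp only [step_zero, Matrix.cons_val_zero, Matrix.cons_val_one, Matrix.cons_val_fin_one]
      have := hqe (u.eval t)
      linear_combination (u.eval t - c) * ht' + (v.eval t + q.eval (u.eval t)) * this
    rw [step_of_root q (by rw [h0]; exact hc), h0]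
  · rw [iterate_coords]
    intro h
    have h0 : u.eval t = c := by simpa using congrFun h 0
    have h1 : v.eval t = 0 := by simpa using congrFun h 1
    rw [h0, h1, hc] at ht'
    simp at ht'

lemma infinite_params [IsAlgClosed K] (q : K[X]) (hq : 2 ≤ q.natDegree) (c : K)
    (hc : q.eval c = 0) :
    {t : K | ∃ k : ℕ, 1 ≤ k ∧ (step q)^[k] ![t + 1, t] = ![c, 0]}.Infinite := by
  intro hfin
  have hfix : step q ![c, 0] = ![c, 0] := (mem_fixed q _).mpr (by simp [hc])
  have hmono : ∀ (x : Fin 2 → K) (k N : ℕ), k ≤ N → (step q)^[k] x = ![c, 0] →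
      (step q)^[N] x = ![c, 0] := by
    intro x k N hkN h
    obtain ⟨d, rfl⟩ := Nat.exists_eq_add_of_le' hkN
    rw [Function.iterate_add_apply, h]
    exact Function.iterate_fixed hfix d
  have hN : ∃ N : ℕ, ∀ t ∈ {t : K | ∃ k : ℕ, 1 ≤ k ∧ (step q)^[k] ![t + 1, t] = ![c, 0]},
      (step q)^[N] ![t + 1, t] = ![c, 0] := by
    choose! κ hκ using fun t (ht : t ∈ {t : K | ∃ k : ℕ, 1 ≤ k ∧
      (step q)^[k] ![t + 1, t] = ![c, 0]}) => ht
    obtain ⟨N, hN⟩ := (hfin.image κ).bddAbove
    exact ⟨N, fun t ht => hmono _ _ _ (hN ⟨t, ht, rfl⟩) (hκ t ht).2⟩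
  obtain ⟨N, hN⟩ := hN
  obtain ⟨t, h1, h2⟩ := late_point q hq c hc N
  exact h2 (hN t ⟨N + 2, by omega, h1⟩)

/-- The line `u - v = 1` as the kernel of its parametrisation. -/
noncomputable def param : MvPolynomial (Fin 2) K →ₐ[K] K[X] :=
  MvPolynomial.aeval ![X + 1, X]

lemma sub_mem_span (f : MvPolynomial (Fin 2) K) :
    f - Polynomial.aeval (MvPolynomial.X 1 : MvPolynomial (Fin 2) K) (param f) ∈
      Ideal.span {(MvPolynomial.X 0 - MvPolynomial.X 1 - 1 : MvPolynomial (Fin 2) K)} := by
  induction f using MvPolynomial.induction_on with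
  | C a => simp [param]
  | add f g hf hg =>
    have := Ideal.add_mem _ hf hg
    rw [map_add, map_add]
    convert this using 1
    ring
  | mul_X f i hf =>
    have hi : (MvPolynomial.X i : MvPolynomial (Fin 2) K) -
        Polynomial.aeval (MvPolynomial.X 1 : MvPolynomial (Fin 2) K)
          (param (MvPolynomial.X i : MvPolynomial (Fin 2) K)) ∈
        Ideal.span {(MvPolynomial.X 0 - MvPolynomial.X 1 - 1 : MvPolynomial (Fin 2) K)} := by
      fin_cases i
      · apply Ideal.subset_span
        simp [param, sub_add_eq_sub_sub]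
      · simp [param]
    have := Ideal.add_mem _
      (Ideal.mul_mem_right (MvPolynomial.X i : MvPolynomial (Fin 2) K) _ hf)
      (Ideal.mul_mem_left _
        (Polynomial.aeval (MvPolynomial.X 1 : MvPolynomial (Fin 2) K) (param f)) hi)
    rw [map_mul, map_mul]
    convert this using 1
    ring

lemma ker_param : RingHom.ker (param (K := K)) =
    Ideal.span {(MvPolynomial.X 0 - MvPolynomial.X 1 - 1 : MvPolynomial (Fin 2) K)} := by
  apply le_antisymm
  · intro f hf
    have := sub_mem_span f
    rwa [RingHom.mem_ker.mp hf, map_zero, sub_zero] at this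
  · rw [Ideal.span_le, Set.singleton_subset_iff]
    simp [RingHom.mem_ker, param]

lemma eval_param (f : MvPolynomial (Fin 2) K) (t : K) :
    (param f).eval t = MvPolynomial.aeval ![t + 1, t] f := by
  induction f using MvPolynomial.induction_on with
  | C a => simp [param]
  | add f g hf hg => rw [map_add, map_add, eval_add, hf, hg]
  | mul_X f i hf =>
    rw [map_mul, map_mul, eval_mul, hf]
    congr 1
    fin_cases i <;> simp [param]

end Dyn

/-- A polynomial over `F` of degree `m`, separable, vanishing at `1`. -/
lemma exists_poly (F : Type) [Field F] (m : ℕ) (hm : 2 ≤ m) :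
    ∃ q : F[X], q.natDegree = m ∧ q.Separable ∧ q.eval 1 = 0 := by
  by_cases h : (m : F) = 0
  · obtain ⟨n, rfl⟩ := Nat.exists_eq_add_of_le' (show 1 ≤ m by omega)
    have hn : (n : F) ≠ 0 := by
      intro h0
      simp [h0] at h
    have hn0 : n ≠ 0 := by omega
    have hdeg : (X ^ n - 1 : F[X]).natDegree = n := by
      simpa using natDegree_X_pow_sub_C (n := n) (r := (1 : F))
    have hne : (X ^ n - 1 : F[X]) ≠ 0 := by
      intro h0
      rw [h0, natDegree_zero] at hdeg
      omega
    refine ⟨X * (X ^ n - 1), ?_, ?_, by simp⟩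
    · rw [natDegree_mul X_ne_zero hne, natDegree_X, hdeg, add_comm]
    · refine separable_X.mul (X_pow_sub_one_separable_iff.mpr hn) ?_
      obtain ⟨k, rfl⟩ := Nat.exists_eq_succ_of_ne_zero hn0
      exact ⟨X ^ k, -1, by rw [Nat.succ_eq_add_one]; ring⟩
  · refine ⟨X ^ m - 1, ?_, X_pow_sub_one_separable_iff.mpr h, by simp⟩
    simpa using natDegree_X_pow_sub_C (n := m) (r := (1 : F))

lemma orbit_finite (F : Type) [Field F] [Finite F] (q : F[X]) (t : AlgebraicClosure F) :
    (Set.range fun k : ℕ =>
      (step (q.map (algebraMap F (AlgebraicClosure F))))^[k] ![t + 1, t]).Finite := by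
  set L := IntermediateField.adjoin F {t} with hL
  have : FiniteDimensional F L :=
    IntermediateField.adjoin.finiteDimensional (Algebra.IsIntegral.isIntegral t)
  have : Finite L := Module.finite_of_finite F
  have hLfin : (L : Set (AlgebraicClosure F)).Finite := Set.toFinite _
  have ht : t ∈ L := IntermediateField.mem_adjoin_simple_self F t
  have hev : ∀ s ∈ L, (q.map (algebraMap F (AlgebraicClosure F))).eval s ∈ L := by
    intro s hs
    rw [eval_map_algebraMap]
    have := Polynomial.aeval_algebraMap_apply (AlgebraicClosure F) (⟨s, hs⟩ : L) q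
    rw [show (algebraMap L (AlgebraicClosure F)) ⟨s, hs⟩ = s from rfl] at this
    rw [this]
    exact (Polynomial.aeval (⟨s, hs⟩ : L) q).2
  have hk : ∀ k : ℕ, ∀ i, (step (q.map (algebraMap F (AlgebraicClosure F))))^[k]
      ![t + 1, t] i ∈ L := by
    intro k
    induction k with
    | zero =>
      intro i
      fin_cases i
      · exact L.add_mem ht L.one_mem
      · exact ht
    | succ k ih =>
      intro i
      rw [Function.iterate_succ_apply']
      have hw := L.mul_mem (hev _ (ih 0)) (L.add_mem (ih 1) (hev _ (ih 0)))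
      fin_cases i
      · exact L.add_mem (ih 0) hw
      · exact hw
  refine (Set.Finite.pi' (fun _ : Fin 2 => hLfin)).subset ?_
  rintro _ ⟨k, rfl⟩
  exact hk k

/-- Over every finite field `F` and for every `m ≥ 2` there are a polynomial self-map `T` of the
affine plane over `F` and a geometrically integral closed subvariety `Y = V(I)` such that `T` has
exactly `m` geometric fixed points, every geometric point of `Y` is sent to a fixed point by an
iterate of `T`, and each fixed point is the limit of an infinite, Zariski dense set of geometric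
points of `Y`. -/
theorem result (F : Type) [Field F] [Finite F] (m : ℕ) (hm : 2 ≤ m) :
    ∃ (T : Fin 2 → MvPolynomial (Fin 2) F) (I : Ideal (MvPolynomial (Fin 2) F))
      (τ : (Fin 2 → AlgebraicClosure F) → (Fin 2 → AlgebraicClosure F)),
      (∀ x i, τ x i = MvPolynomial.aeval x (T i)) ∧
      (I.map (MvPolynomial.map (algebraMap F (AlgebraicClosure F)))).IsPrime ∧
      (Function.fixedPoints τ).ncard = m ∧
      (∀ Q ∈ MvPolynomial.zeroLocus (AlgebraicClosure F) I,
        ∃ k : ℕ, 1 ≤ k ∧ τ^[k] Q ∈ Function.fixedPoints τ) ∧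
      ∀ P ∈ Function.fixedPoints τ,
        {Q | Q ∈ MvPolynomial.zeroLocus (AlgebraicClosure F) I ∧
            ∃ k : ℕ, 1 ≤ k ∧ τ^[k] Q = P}.Infinite ∧
        MvPolynomial.vanishingIdeal (AlgebraicClosure F)
            {Q | Q ∈ MvPolynomial.zeroLocus (AlgebraicClosure F) I ∧
              ∃ k : ℕ, 1 ≤ k ∧ τ^[k] Q = P} =
          I.map (MvPolynomial.map (algebraMap F (AlgebraicClosure F))) := by
  obtain ⟨q, hdeg, hsep, h1⟩ := exists_poly F m hm
  set K := AlgebraicClosure F with hK
  set qK : K[X] := q.map (algebraMap F K) with hqK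
  have hdegK : 2 ≤ qK.natDegree := by rw [hqK, natDegree_map, hdeg]; exact hm
  have hq0 : q ≠ 0 := hsep.ne_zero
  have h1K : qK.eval 1 = 0 := by
    rw [hqK, eval_map_algebraMap, ← map_one (algebraMap F K), aeval_algebraMap_apply]
    simp [h1]
  set Q0 : MvPolynomial (Fin 2) F :=
    Polynomial.aeval (MvPolynomial.X 0 : MvPolynomial (Fin 2) F) q with hQ0
  have hQ0e : ∀ x : Fin 2 → K, MvPolynomial.aeval x Q0 = qK.eval (x 0) := by
    intro x
    rw [hQ0, ← Polynomial.aeval_algHom_apply, hqK, eval_map_algebraMap]
    simp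
  set I : Ideal (MvPolynomial (Fin 2) F) :=
    Ideal.span {MvPolynomial.X 0 - MvPolynomial.X 1 - 1} with hI
  have hmap : I.map (MvPolynomial.map (algebraMap F K)) = RingHom.ker (param (K := K)) := by
    rw [hI, Ideal.map_span, ker_param]
    simp
  have hzero : ∀ x : Fin 2 → K, x ∈ MvPolynomial.zeroLocus K I ↔ x = ![x 1 + 1, x 1] := by
    intro x
    rw [hI, MvPolynomial.zeroLocus_span]
    simp only [Set.mem_singleton_iff, forall_eq, map_sub, MvPolynomial.aeval_X, map_one,
      Set.mem_ofPred_eq]
    constructor
    · intro h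
      apply ext2
      · simp only [Matrix.cons_val_zero]
        linear_combination h
      · simp
    · intro h
      have := congrFun h 0
      simp only [Matrix.cons_val_zero] at this
      linear_combination this
  refine ⟨![MvPolynomial.X 0 + Q0 * (MvPolynomial.X 1 + Q0), Q0 * (MvPolynomial.X 1 + Q0)], I,
    step qK, ?_, ?_, ?_, ?_, ?_⟩
  · intro x i
    fin_cases i <;> simp [hQ0e]
  · rw [hmap]
    exact RingHom.ker_isPrime _
  · have himg : Function.fixedPoints (step qK) = (fun c : K => (![c, 0] : Fin 2 → K)) ''
        q.rootSet K := by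
      ext x
      rw [mem_fixed]
      constructor
      · rintro ⟨h0, h1⟩
        refine ⟨x 0, ?_, ext2 (by simp) (by simp [h1])⟩
        rw [mem_rootSet_of_ne hq0, ← eval_map_algebraMap]
        exact h0
      · rintro ⟨c, hc, rfl⟩
        rw [mem_rootSet_of_ne hq0, ← eval_map_algebraMap] at hc
        exact ⟨hc, rfl⟩
    have hinj : Function.Injective fun c : K => (![c, 0] : Fin 2 → K) := fun a b h => by
      simpa using congrFun h 0
    rw [himg, Set.ncard_image_of_injective _ hinj, ← Nat.card_coe_set_eq,
      Nat.card_eq_fintype_card, card_rootSet_eq_natDegree hsep (IsAlgClosed.splits _), hdeg]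
  · intro Q hQ
    rw [hzero] at hQ
    have hfin := orbit_finite F q (Q 1)
    rw [← hQ] at hfin
    obtain ⟨k, hk⟩ := hits_root qK Q (by
      have := congrFun hQ 0
      simp only [Matrix.cons_val_zero] at this
      rw [this, add_sub_cancel_left]
      exact h1K) hfin
    refine ⟨k + 1, by omega, ?_⟩
    rw [Function.iterate_succ_apply', step_of_root qK hk, mem_fixed]
    exact ⟨hk, rfl⟩
  · intro P hP
    rw [mem_fixed] at hP
    have hPe : P = ![P 0, 0] := ext2 (by simp) (by simp [hP.2])
    have hinf := infinite_params qK hdegK (P 0) hP.1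
    rw [← hPe] at hinf
    have hS : {Q | Q ∈ MvPolynomial.zeroLocus K I ∧ ∃ k : ℕ, 1 ≤ k ∧ (step qK)^[k] Q = P} =
        (fun t : K => (![t + 1, t] : Fin 2 → K)) ''
          {t : K | ∃ k : ℕ, 1 ≤ k ∧ (step qK)^[k] ![t + 1, t] = P} := by
      ext Q
      constructor
      · rintro ⟨hQ, hk⟩
        rw [hzero] at hQ
        exact ⟨Q 1, by rwa [Set.mem_ofPred_eq, ← hQ], hQ.symm⟩
      · rintro ⟨t, ht, rfl⟩
        exact ⟨(hzero _).mpr (by simp), ht⟩
    have hinj : Function.Injective fun t : K => (![t + 1, t] : Fin 2 → K) := fun a b h => by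
      simpa using congrFun h 1
    rw [hS]
    refine ⟨hinf.image hinj.injOn, ?_⟩
    rw [hmap]
    ext f
    rw [MvPolynomial.mem_vanishingIdeal_iff, RingHom.mem_ker]
    constructor
    · intro h
      apply Polynomial.eq_zero_of_infinite_isRoot
      refine hinf.mono ?_
      intro t ht
      change (param f).eval t = 0
      rw [eval_param]
      exact h _ ⟨t, ht, rfl⟩
    · rintro h _ ⟨t, -, rfl⟩
      rw [← eval_param]
      change (param f).eval t = 0
      rw [show param f = 0 from h, eval_zero]

end Pool.Agent.Results.MP_2dcdad_ag.ManyLimits
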